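import Mathlib
import Pool.Agent.Y767.CC.Ex

/-!
# Ordered sets of width five in which every element has a chain cutset, of every size
-/

namespace Pool.Agent.Results.MP_79bc23_co.EverySize

open Cardinal Pool.Agent.Y767.CC

universe u

/-- For every cardinal number `κ ≥ 15`, finite or infinite, there is an ordered set with exactly
`κ` elements in which every element has a chain cutset and whose width is exactly five: it contains
an antichain of five elements, and no antichain has more than five elements. -/
theorem result (κ : Cardinal.{u}) (hκ : 15 ≤ κ) : ∃ (P : Type u) (_ : PartialOrder P),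
    #P = κ ∧
    (∀ x : P, ∃ K : Set P, IsChainCutsetFor x K) ∧
    (∃ A : Finset P, A.card = 5 ∧ IsAntichain (· ≤ ·) (A : Set P)) ∧
    ∀ S : Set P, IsAntichain (· ≤ ·) S → S.encard ≤ 5 := by
  obtain ⟨c, rfl⟩ := exists_add_of_le hκ
  let ι : Type u := c.ord.ToType
  refine ⟨Lex (ULift.{u} Q ⊕ ι), inferInstance, ?_, ?_, ?_, ?_⟩
  · have h1 : #(Lex (ULift.{u} Q ⊕ ι)) = #(ULift.{u} Q ⊕ ι) := rfl
    rw [h1, mk_sum, lift_id, lift_id, mk_toType, card_ord, mk_uLift, mk_fintype, card_Q]
    norm_num
  · intro x
    induction x using Lex.rec with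
    | _ x =>
      rcases x with x | i
      · obtain ⟨K, hK⟩ := exists_cutset_lift x
        exact ⟨_, cutset_inl hK⟩
      · exact ⟨_, cutset_inr i⟩
  · let f : Q ↪ Lex (ULift.{u} Q ⊕ ι) :=
      ⟨fun a => toLex (Sum.inl (ULift.up a)), fun a b hab =>
        ULift.up_injective (Sum.inl_injective (toLex.injective hab))⟩
    refine ⟨A.map f, ?_, ?_⟩
    · rw [Finset.card_map]
      decide +kernel
    · rintro x hx y hy hxy hle
      obtain ⟨a, ha, rfl⟩ := Finset.mem_map.1 (Finset.mem_coe.1 hx)
      obtain ⟨b, hb, rfl⟩ := Finset.mem_map.1 (Finset.mem_coe.1 hy)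
      have hle' : toLex (Sum.inl (ULift.up a) : ULift.{u} Q ⊕ ι) ≤
          toLex (Sum.inl (ULift.up b)) := hle
      have hab : (ULift.up a : ULift.{u} Q) ≤ ULift.up b := Sum.Lex.inl_le_inl_iff.1 hle'
      exact A_anti a ha b hb (fun h => hxy (by rw [h])) hab
  · exact antichain_sum (by norm_num) antichain_lift

end Pool.Agent.Results.MP_79bc23_co.EverySize
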